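import Pool.Agent.H318Z.MA.Main
import Pool.Agent.Helper391.Gro.P_main
import Pool.Agent.Helper391.Gro.P_positive

set_option autoImplicit false
set_option linter.all false

/-!
# Perfectly normal compacta and the hereditary Grothendieck property: independence of ZFC

Both hypotheses are forced here. Some forcing notion keeps `ω₁` and forces diamond, and diamond
gives a perfectly normal compact space which is not hereditarily Grothendieck. Some forcing notion
keeps `ω₁` and forces Martin's axiom for `ω₁` dense sets, and under this axiom every perfectly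
normal compact space is hereditarily Grothendieck.
-/

open Set Topology Filter

namespace Pool.Agent.Results.MP_3e0795_gt.AIndependentZFC

open Pool.Agent.Helper292.ForceCH (Om OmegaOnePreserved DiamondHolds)
open H318Z.MA (MAHolds MartinAxiom)

/-- `C` is a closed unbounded subset of `ω₁` (the sentence named by `IsClubName`) -/
def IsClub (C : Om → Prop) : Prop :=
  (∀ a : Om, ∃ b : Om, a < b ∧ C b) ∧
    ∀ a : Om, (∃ b, b < a) → (∀ b : Om, b < a → ∃ c : Om, (b < c ∧ c < a) ∧ C c) → C a

/-- diamond: the sentence which `DiamondHolds P` says is forced, evaluated in the universe -/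
def Diamond : Prop :=
  ∃ A : Om → Om → Prop, ∀ S : Om → Prop, ∀ C : Om → Prop,
    IsClub C → ∃ a : Om, C a ∧ ∀ b : Om, b < a → (S b ↔ A a b)

/-- `C_p(X)`: the continuous real functions with the topology of pointwise convergence (the
subspace topology of the product `X → ℝ`) -/
abbrev Cp (X : Type) [TopologicalSpace X] : Type := {f : X → ℝ // Continuous f}

/-- `A` is countably compact in `Z`: every infinite subset of `A` has an accumulation point
in `Z` -/
def CountablyCompactIn {Z : Type} [TopologicalSpace Z] (A : Set Z) : Prop :=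
  ∀ B : Set Z, B ⊆ A → B.Infinite → ∃ z : Z, AccPt z (𝓟 B)

/-- `Z` is a g-space: the closure of every set which is countably compact in `Z` is compact -/
def GSpace (Z : Type) [TopologicalSpace Z] : Prop :=
  ∀ A : Set Z, CountablyCompactIn A → IsCompact (closure A)

/-- `X` is Grothendieck: every subspace of `C_p(X)` is a g-space -/
def Grothendieck (X : Type) [TopologicalSpace X] : Prop :=
  ∀ Z : Set (Cp X), GSpace Z

/-- `X` is hereditarily Grothendieck: every subspace is Grothendieck -/
def HereditarilyGrothendieck (X : Type) [TopologicalSpace X] : Prop :=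
  ∀ Y : Set X, Grothendieck Y

/-- The statement of the question: every perfectly normal compact Hausdorff space is hereditarily
Grothendieck. -/
def Q1 : Prop :=
  ∀ (X : Type) (_ : TopologicalSpace X), CompactSpace X → T2Space X →
    PerfectlyNormalSpace X → HereditarilyGrothendieck X

/-- `Q1` is independent of ZFC. (1) Some forcing notion preserves `ω₁` and forces diamond, and
diamond refutes `Q1`. (2) Some forcing notion preserves `ω₁` and forces Martin's axiom for `ω₁`
dense sets, and this axiom proves `Q1`. -/
theorem result :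
    ((∃ (P : Type) (_ : Preorder P), Nonempty P ∧ ∀ p : P,
      p ∈ OmegaOnePreserved P ∧ p ∈ DiamondHolds P) ∧ (Diamond → ¬ Q1)) ∧
    ((∃ (P : Type) (_ : Preorder P), Nonempty P ∧ ∀ p : P,
      p ∈ OmegaOnePreserved P ∧ p ∈ MAHolds P Om) ∧ (MartinAxiom.{0, 0} Om → Q1)) := by
  refine ⟨⟨?_, ?_⟩, ?_, ?_⟩
  · obtain ⟨P, hP, hne, h⟩ := Pool.Agent.Helper292.ForceCH.exists_forcing
    exact ⟨P, hP, hne, fun p => ⟨(h p).1, (h p).2.1⟩⟩
  · intro h hQ
    obtain ⟨X, tX, h1, h2, h3, h4⟩ := Pool.Agent.Helper391.Gro.main h
    exact h4 (hQ X tX h1 h2 h3)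
  · exact H318Z.MA.exists_forcing
  · intro h X _ _ _ _
    refine Pool.Agent.Helper391.Gro.positive ?_ X
    intro P _ hne hc D hD
    obtain ⟨G, h1, h2, h3, h4⟩ := h P hne hc D (fun k x => by
      obtain ⟨q, hq, hq'⟩ := hD k x
      exact ⟨q, hq, hq'⟩)
    refine ⟨G, h1, fun p hp q hq => h2 p q ⟨hp, hq⟩, fun p hp q hq => ?_, fun a => ?_⟩
    · obtain ⟨z, hz, hz1, hz2⟩ := h3 p q ⟨hp, hq⟩
      exact ⟨z, hz, hz1, hz2⟩
    · obtain ⟨x, hx, hx'⟩ := h4 a
      exact ⟨x, hx, hx'⟩

end Pool.Agent.Results.MP_3e0795_gt.AIndependentZFC
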